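import Mathlib
import Pool.Agent.H.MP_fcb754_nt.Main

set_option autoImplicit false

namespace Pool.Agent.Results.MP_047497_nt.Disproof

/-- The moment bound for the Barnes multiple zeta-function fails: there are `r`, `a > 0` and
positive weights `w` such that, for the continuation `F` of the Barnes zeta-function
(holomorphic off `1, …, r` and equal to the series for `Re s > r`), for every `k ≥ 1` there are
`ε > 0` and `σ ≥ r - d / 2` with `∫_1^T |F(σ + i t)|^(2k) dt` not `O(T^(1+ε))`. -/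
theorem result :
    ∃ (r : ℕ) (a : ℝ) (w : Fin r → ℝ) (F : ℂ → ℂ), 1 ≤ r ∧ 0 < a ∧ (∀ j, 0 < w j) ∧
      DifferentiableOn ℂ F {s : ℂ | ∀ k : ℕ, 1 ≤ k → k ≤ r → s ≠ (k : ℂ)} ∧
      (∀ s : ℂ, (r : ℝ) < s.re →
        F s = ∑' m : Fin r → ℕ, (((a + ∑ j, (m j : ℝ) * w j : ℝ) : ℂ) ^ (-s))) ∧
      ∀ k : ℕ, 1 ≤ k → ∃ ε σ : ℝ, 0 < ε ∧
        (r : ℝ) - (Module.finrank ℚ (Submodule.span ℚ (Set.range w)) : ℝ) / 2 ≤ σ ∧
        ¬ Asymptotics.IsBigO Filter.atTop
          (fun T : ℝ => ∫ t in (1 : ℝ)..T, ‖F ((σ : ℂ) + (t : ℂ) * Complex.I)‖ ^ (2 * k))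
          (fun T : ℝ => T ^ (1 + ε)) := by
  obtain ⟨θ, F, h1, hL, hF1, hF2, hψc, hmain⟩ := Pool.Agent.H.MP_fcb754_nt.main
  have hw : ∀ j, 0 < Pool.Agent.H.MP_fcb754_nt.ww θ j := by
    intro j
    have : 0 < θ := by linarith
    fin_cases j <;> simp [Pool.Agent.H.MP_fcb754_nt.ww] <;> positivity
  refine ⟨3, 1, Pool.Agent.H.MP_fcb754_nt.ww θ, F, by norm_num, one_pos, hw,
    hF1.mono fun s hs => ⟨by simpa using hs 1 (by norm_num) (by norm_num),
      by simpa using hs 2 (by norm_num) (by norm_num),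
      by simpa using hs 3 (by norm_num) (by norm_num)⟩,
    fun s hs => hF2 s (by exact_mod_cast hs), fun k hk => ⟨1 / 2, 3 / 2, by norm_num, ?_, ?_⟩⟩
  · rw [Pool.Agent.H.MP_fcb754_nt.finrank_ww θ hL]
    norm_num
  · intro hO
    obtain ⟨C, hC⟩ := hO.bound
    obtain ⟨T0, hT0⟩ := Filter.eventually_atTop.mp hC
    refine hmain (1 + C) (max T0 1) fun T hT => ?_
    have hT1 : 1 ≤ T := le_trans (le_max_right _ _) hT
    have h2 := hT0 T (le_trans (le_max_left _ _) hT)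
    rw [Real.norm_of_nonneg (by positivity : (0 : ℝ) ≤ T ^ (1 + 1 / 2 : ℝ)),
      show (1 + 1 / 2 : ℝ) = 3 / 2 by norm_num] at h2
    have h3 := (le_abs_self _).trans h2
    have hb : ∀ t ∈ Set.Icc (1 : ℝ) T, ‖F ((3 / 2 : ℝ) + t * Complex.I)‖ ≤
        1 + ‖F ((3 / 2 : ℝ) + t * Complex.I)‖ ^ (2 * k) := by
      intro t _
      rcases le_total ‖F ((3 / 2 : ℝ) + t * Complex.I)‖ 1 with h | h
      · have : 0 ≤ ‖F ((3 / 2 : ℝ) + t * Complex.I)‖ ^ (2 * k) := by positivity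
        linarith
      · have := le_self_pow₀ h (show 2 * k ≠ 0 by omega)
        linarith
    have hc2 : Continuous fun t : ℝ => ‖F ((3 / 2 : ℝ) + t * Complex.I)‖ ^ (2 * k) :=
      hψc.norm.pow _
    have h4 := intervalIntegral.integral_mono_on (μ := MeasureTheory.volume) hT1
      (hψc.norm.intervalIntegrable 1 T) ((continuous_const.add hc2).intervalIntegrable 1 T) hb
    simp only [Pi.add_apply] at h4
    rw [intervalIntegral.integral_add (continuous_const.intervalIntegrable 1 T)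
      (hc2.intervalIntegrable 1 T), intervalIntegral.integral_const, smul_eq_mul] at h4
    have h5 : T ≤ T ^ (3 / 2 : ℝ) := by
      calc T = T ^ (1 : ℝ) := (Real.rpow_one T).symm
        _ ≤ _ := Real.rpow_le_rpow_of_exponent_le hT1 (by norm_num)
    linarith

end Pool.Agent.Results.MP_047497_nt.Disproof
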